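import Mathlib
import Pool.Agent.U645.ST.Rel

/-!
# Stark's conjecture: the square of every Artin L-function is a product of L-functions over totally
complex fields and zeta functions

The definitions are in `Pool.Agent.K4H74.SC.Core`, `Pool.Agent.K4H77.SL.Def` and
`Pool.Agent.U645.ST.Rel`; `S` is the set of the infinite places.
-/

set_option autoImplicit false

namespace Pool.Agent.Results.MP_46b841_nt.ComplexBaseSquares

open NumberField Pool.Agent.K4H74 Pool.Agent.K4H74.ST Pool.Agent.K4H74.SK Pool.Agent.U645.ST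

/-- The basic characters: the trivial characters of the number fields (with the zeta functions as
L-functions; for them Stark's conjecture is known, by the class number formula), and the faithful
linear characters of the (cyclic) extensions of the totally complex fields. -/
inductive Basic : Pair → Prop
  | trivial (K : Type) [Field K] [NumberField K] : Basic ⟨⟨K, K⟩, fun _ => 1⟩
  | complex (E : Ext) (ψ : G E →* ℂˣ) : IsTotallyComplex E.K → Function.Injective ψ →
      Basic ⟨E, lin ψ⟩

lemma Basic.isChr {x : Pair} (h : Basic x) : IsChr x.2 := by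
  cases h with
  | trivial K =>
    have h1 := isChr_lin (E := ⟨K, K⟩) 1
    have h2 : lin (1 : G ⟨K, K⟩ →* ℂˣ) = fun _ => 1 := by
      funext g
      simp [lin]
    rwa [h2] at h1
  | complex E ψ _ _ => exact isChr_lin ψ

/-- Let `c` be a system of leading coefficients at `s = 0` of the Artin L-functions (such systems
exist; by Brauer's theorem on the meromorphic continuation, the only one is `L*(0, χ)`). Let `χ` be
a character of a Galois extension `L / K` of number fields.

(1) There are basic characters `ψ_i` and integers `k_i` with `L(s, χ)^2 = ∏ L(s, ψ_i)^(k_i)` (for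
the logarithms, `Re s > 1`); the same holds for the leading coefficients at `s = 0`, for the defects
`d(χ, σ)` of Stark's conjecture (`A(χ, φ)^σ = d(χ, σ) A(χ^σ, φ)`) for all `σ`, and, up to an
algebraic factor, for the numbers `A(χ, φ)`.

(2) If the Galois group has no elements of order four, then this is true with `L(s, χ)` itself in
place of `L(s, χ)^2`.

(3) Let `σ` be an automorphism of `ℂ`, and assume Stark's conjecture for `σ` and the basic
characters. Then `A(χ, φ)^σ = ± A(χ^σ, φ)` for all `χ` and `φ`, and Stark's conjecture for `σ`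
holds for `χ` if the Galois group has no elements of order four.

(4) If all the numbers `A(ψ, φ)` are algebraic for the basic `ψ`, then for all characters. -/
theorem result : (∃ c : Pair → ℂ, IsLeading c) ∧ ∀ c : Pair → ℂ, IsLeading c →
    -- (1), (2)
    (∀ (E : Ext) (χ : G E → ℂ), IsChr χ → Related c Basic 2 ⟨E, χ⟩ ∧
      ((∀ g : G E, orderOf g ≠ 4) → Related c Basic 1 ⟨E, χ⟩)) ∧
    -- (3)
    (∀ σ : ℂ ≃+* ℂ, (∀ x : Pair, Basic x → Stark c σ x.2) →
      ∀ (E : Ext) (χ : G E → ℂ), IsChr χ → StarkSign c σ χ ∧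
        ((∀ g : G E, orderOf g ≠ 4) → Stark c σ χ)) ∧
    -- (4)
    ((∀ x : Pair, Basic x → ∀ a : ℂ, IsStarkNumber c x a → IsAlgebraic ℚ a) →
      ∀ (E : Ext) (χ : G E → ℂ), IsChr χ → ∀ a : ℂ, IsStarkNumber c ⟨E, χ⟩ a →
        IsAlgebraic ℚ a) := by
  refine ⟨exists_isLeading, fun c hc => ?_⟩
  have hT : ∀ x, Basic x → IsChr x.2 := fun x hx => hx.isChr
  set B := quo (Pool.Agent.K4H34.AL.allInv hc) Basic with hB
  have i1 : TrivOne B := fun K _ _ => quo_one _ (Basic.trivial K)
  have i2 : TrivComplex B := fun K L _ _ _ _ _ _ hK ψ hψ =>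
    quo_one (Pool.Agent.K4H34.AL.allInv hc) (x := ⟨⟨K, L⟩, _⟩) (Basic.complex ⟨K, L⟩ ψ hK hψ)
  have h2 : ∀ (E : Ext) (χ : G E → ℂ), IsChr χ → Related c Basic 2 ⟨E, χ⟩ := fun E χ hχ =>
    related_of hc hT hχ (main_sq B i1 i2 E.K E.L χ (isChr_iff.mp hχ))
  have h1 : ∀ (E : Ext) (χ : G E → ℂ), IsChr χ → (∀ g : G E, orderOf g ≠ 4) →
      Related c Basic 1 ⟨E, χ⟩ := fun E χ hχ hG =>
    related_of hc hT hχ (by
      rw [pow_one]
      exact main_four i1 i2 E.K E.L hG χ (isChr_iff.mp hχ))
  refine ⟨fun E χ hχ => ⟨h2 E χ hχ, h1 E χ hχ⟩, fun σ hb E χ hχ =>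
    ⟨(h2 E χ hχ).starkSign hc hχ hb, fun hG => (h1 E χ hχ hG).stark hc hχ hb⟩,
    fun hb E χ hχ a ha => (h2 E χ hχ).algebraic hc hT (by norm_num) hb ha⟩

end Pool.Agent.Results.MP_46b841_nt.ComplexBaseSquares
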