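import Mathlib
import Pool.Agent.U645.ST.Rel

/-!
# Stark's conjecture: an exact reduction to totally complex fields, totally odd characters and
cyclic extensions of degree `4, 8, 16, ...` without ramification at infinity

The definitions are in `Pool.Agent.K4H74.SC.Core`, `Pool.Agent.K4H77.SL.Def` and
`Pool.Agent.U645.ST.Rel`; `S` is the set of the infinite places.
-/

set_option autoImplicit false

namespace Pool.Agent.Results.MP_46b841_nt.ExactReduction

open NumberField Pool.Agent.K4H74 Pool.Agent.K4H74.ST Pool.Agent.K4H74.SK Pool.Agent.U645.ST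

/-- The basic characters: the trivial characters of the number fields and the totally odd linear
characters of the extensions of the totally real fields (for these two types Stark's conjecture is
known, by the class number formula and Siegel's theorem); the faithful linear characters of the
(cyclic) extensions of the totally complex fields; and the faithful linear characters of the cyclic
extensions `L / K` of degree `4, 8, 16, ...` without nontrivial complex conjugations, where `K` is
neither totally real nor totally complex. -/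
inductive Basic : Pair → Prop
  | trivial (K : Type) [Field K] [NumberField K] : Basic ⟨⟨K, K⟩, fun _ => 1⟩
  | complex (E : Ext) (ψ : G E →* ℂˣ) : IsTotallyComplex E.K → Function.Injective ψ →
      Basic ⟨E, lin ψ⟩
  | odd (E : Ext) (ψ : G E →* ℂˣ) : IsTotallyReal E.K → (∀ t : G E, IsCC t → ψ t = -1) →
      Basic ⟨E, lin ψ⟩
  | mixed (E : Ext) (ψ : G E →* ℂˣ) : ¬ IsTotallyReal E.K → ¬ IsTotallyComplex E.K →
      (∃ l : ℕ, Nat.card (G E) = 2 ^ (l + 2)) → (∀ t : G E, IsCC t → t = 1) →
      Function.Injective ψ → Basic ⟨E, lin ψ⟩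

lemma Basic.isChr {x : Pair} (h : Basic x) : IsChr x.2 := by
  cases h with
  | trivial K =>
    have h1 := isChr_lin (E := ⟨K, K⟩) 1
    have h2 : lin (1 : G ⟨K, K⟩ →* ℂˣ) = fun _ => 1 := by
      funext g
      simp [lin]
    rwa [h2] at h1
  | complex E ψ _ _ => exact isChr_lin ψ
  | odd E ψ _ _ => exact isChr_lin ψ
  | mixed E ψ _ _ _ _ _ => exact isChr_lin ψ

/-- Let `c` be a system of leading coefficients at `s = 0` of the Artin L-functions (such systems
exist; by Brauer's theorem on the meromorphic continuation, the only one is `L*(0, χ)`).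

(1) Let `χ` be a character of a Galois extension `L / K` of number fields. There are basic
characters `ψ_i` and integers `k_i` with `L(s, χ) = ∏ L(s, ψ_i)^(k_i)` (for the logarithms,
`Re s > 1`); the same holds for the leading coefficients at `s = 0`, for the defects `d(χ, σ)` of
Stark's conjecture (`A(χ, φ)^σ = d(χ, σ) A(χ^σ, φ)`) for all automorphisms `σ` of `ℂ`, and, up to
an algebraic factor, for the numbers `A(χ, φ)`.

(2) Let `σ` be an automorphism of `ℂ`. Stark's conjecture for `σ` and all characters of all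
Galois extensions of number fields holds if and only if it holds for `σ` and the basic
characters. -/
theorem result : (∃ c : Pair → ℂ, IsLeading c) ∧ ∀ c : Pair → ℂ, IsLeading c →
    -- (1)
    (∀ (E : Ext) (χ : G E → ℂ), IsChr χ → Related c Basic 1 ⟨E, χ⟩) ∧
    -- (2)
    (∀ σ : ℂ ≃+* ℂ, (∀ (E : Ext) (χ : G E → ℂ), IsChr χ → Stark c σ χ) ↔
      ∀ x : Pair, Basic x → Stark c σ x.2) := by
  refine ⟨exists_isLeading, fun c hc => ?_⟩
  have hT : ∀ x, Basic x → IsChr x.2 := fun x hx => hx.isChr
  set B := quo (Pool.Agent.K4H34.AL.allInv hc) Basic with hB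
  have i1 : TrivOne B := fun K _ _ => quo_one _ (Basic.trivial K)
  have i2 : TrivComplex B := fun K L _ _ _ _ _ _ hK ψ hψ =>
    quo_one (Pool.Agent.K4H34.AL.allInv hc) (x := ⟨⟨K, L⟩, _⟩) (Basic.complex ⟨K, L⟩ ψ hK hψ)
  have i3 : TrivOdd B := by
    intro K L _ _ _ _ _ _ hK ψ hψ
    refine quo_one (Pool.Agent.K4H34.AL.allInv hc) (x := ⟨⟨K, L⟩, _⟩)
      (Basic.odd ⟨K, L⟩ ψ hK ?_)
    rintro t ⟨φ, hφ⟩
    refine hψ φ t ?_
    ext x
    exact (hφ x).symm
  have i4 : TrivMixed B := by
    intro K L _ _ _ _ _ _ hK hK' hl hcc ψ hψ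
    refine quo_one (Pool.Agent.K4H34.AL.allInv hc) (x := ⟨⟨K, L⟩, _⟩)
      (Basic.mixed ⟨K, L⟩ ψ hK hK' hl ?_ hψ)
    rintro t ⟨φ, hφ⟩
    refine hcc φ t ?_
    ext x
    exact (hφ x).symm
  have h1 : ∀ (E : Ext) (χ : G E → ℂ), IsChr χ → Related c Basic 1 ⟨E, χ⟩ := fun E χ hχ =>
    related_of hc hT hχ (by
      rw [pow_one]
      exact main_all B i1 i2 i3 i4 E.K E.L χ (isChr_iff.mp hχ))
  exact ⟨h1, fun σ => ⟨fun h x hx => h x.1 x.2 (hT x hx),
    fun hb E χ hχ => (h1 E χ hχ).stark hc hχ hb⟩⟩

end Pool.Agent.Results.MP_46b841_nt.ExactReduction
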