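import Mathlib
import Pool.Agent.U645.ST.Rel

/-!
# Stark's conjecture for the characters with rational values on the elements of `2`-power order

The definitions are in `Pool.Agent.K4H74.SC.Core`, `Pool.Agent.K4H77.SL.Def` and
`Pool.Agent.U645.ST.Rel`; `S` is the set of the infinite places.
-/

set_option autoImplicit false

namespace Pool.Agent.Results.MP_46b841_nt.RationalOnTwoElements

open NumberField Pool.Agent.K4H74 Pool.Agent.K4H74.ST Pool.Agent.K4H74.SK Pool.Agent.U645.ST

/-- The basic characters: the characters with rational values (for them Stark's conjecture is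
known), and the faithful linear characters of the (cyclic) extensions of the totally complex
fields. -/
inductive Basic : Pair → Prop
  | rational (E : Ext) (χ : G E → ℂ) : IsChr χ → (∀ g, ∃ q : ℚ, χ g = q) → Basic ⟨E, χ⟩
  | complex (E : Ext) (ψ : G E →* ℂˣ) : IsTotallyComplex E.K → Function.Injective ψ →
      Basic ⟨E, lin ψ⟩

lemma Basic.isChr {x : Pair} (h : Basic x) : IsChr x.2 := by
  cases h with
  | rational E χ h _ => exact h
  | complex E ψ _ _ => exact isChr_lin ψ

/-- Let `c` be a system of leading coefficients at `s = 0` of the Artin L-functions (such systems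
exist; by Brauer's theorem on the meromorphic continuation, the only one is `L*(0, χ)`). Let `χ` be
a character of a Galois extension `L / K` of number fields such that `χ(g)` is rational for all `g`
whose order is a power of `2`.

(1) There are basic characters `ψ_i` and integers `k_i` with `L(s, χ) = ∏ L(s, ψ_i)^(k_i)` (for the
logarithms, `Re s > 1`); the same holds for the leading coefficients at `s = 0`, for the defects
`d(χ, σ)` of Stark's conjecture (`A(χ, φ)^σ = d(χ, σ) A(χ^σ, φ)`) for all automorphisms `σ` of `ℂ`,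
and, up to an algebraic factor, for the numbers `A(χ, φ)`.

(2) Stark's conjecture for the automorphism `σ` and the basic characters implies Stark's conjecture
for `σ` and `χ`. -/
theorem result : (∃ c : Pair → ℂ, IsLeading c) ∧ ∀ c : Pair → ℂ, IsLeading c →
    ∀ (E : Ext) (χ : G E → ℂ), IsChr χ →
      (∀ (g : G E) (k : ℕ), g ^ (2 ^ k) = 1 → ∃ q : ℚ, χ g = q) →
      -- (1)
      Related c Basic 1 ⟨E, χ⟩ ∧
      -- (2)
      (∀ σ : ℂ ≃+* ℂ, (∀ x : Pair, Basic x → Stark c σ x.2) → Stark c σ χ) := by
  refine ⟨exists_isLeading, fun c hc E χ hχ hrat => ?_⟩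
  have hT : ∀ x, Basic x → IsChr x.2 := fun x hx => hx.isChr
  set B := quo (Pool.Agent.K4H34.AL.allInv hc) Basic with hB
  have i1 : TrivRational B := fun K L _ _ _ _ _ _ χ hχ hq =>
    quo_one (Pool.Agent.K4H34.AL.allInv hc) (x := ⟨⟨K, L⟩, χ⟩)
      (Basic.rational ⟨K, L⟩ χ (isChr_iff.mpr hχ) hq)
  have i2 : TrivComplex B := fun K L _ _ _ _ _ _ hK ψ hψ =>
    quo_one (Pool.Agent.K4H34.AL.allInv hc) (x := ⟨⟨K, L⟩, _⟩) (Basic.complex ⟨K, L⟩ ψ hK hψ)
  have h1 : Related c Basic 1 ⟨E, χ⟩ :=
    related_of hc hT hχ (by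
      rw [pow_one]
      exact main_rat i1 i2 E.K E.L χ (isChr_iff.mp hχ) hrat)
  exact ⟨h1, fun σ hb => h1.stark hc hχ hb⟩

end Pool.Agent.Results.MP_46b841_nt.RationalOnTwoElements
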