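import Pool.Agent.U745.SK.Num

/-!
# Stark's conjecture as a statement on smoothed products of Frobenius data at `s = 0`

The definitions of the conjecture are in `Pool.Agent.K4H74.SC.Core`; `S` is the set of the infinite
places.  Let `χ` be a character of a Galois extension `L / K` of number fields, and let `χ(p^n)` be the
mean of `χ` over the elements which induce `x ↦ x ^ (N(p)^n)` modulo a prime over `p`, so that
`log L(s, χ) = ∑_p ∑_n χ(p^n) / (n N(p)^(n s))` for `Re s > 1`.  The number `A(χ, φ) = R(χ, φ) / L*(0, χ)`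
of Stark's conjecture contains the leading coefficient of `L(s, χ)` at `s = 0`, where the Euler product
and its logarithm diverge.  For a real number `τ` put, with `ω = 1 + iτ` and `x > 1`,

`P_τ(x; χ) = exp ∑_p ∑_n χ(p^n) / (n Γ(1 + ω n log N(p) / log x))`;

this series over all powers of primes converges absolutely.  Put
`κ = ∫_0^∞ (e^{-t} - 1 / Γ(1 + t)) dt / t` and
`Q_{τ,r}(x; χ) = P_τ(x; χ) (log x / (ω e^κ))^r`.  Let `f` be the meromorphic continuation of `L(s, χ)` to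
the plane (it exists by Brauer's theorem), and call `τ` free if `f` has no zeros and poles on the ray
`{ω y : y > 0}`.  We prove, without any hypothesis on the zeros and poles of `L(s, χ)`:

* all but finitely many `τ` in every bounded interval are free;
* if `τ` is free, then `Q_{τ,r}(x; χ) = L*(0, χ) + O(1 / log x)`, where `r` is the order of `f` at
  `s = 0`; so `R(χ, φ) / Q_{τ,r}(x; χ) → A(χ, φ)` for all `φ`;
* if `τ` is not free, then `|log |P_τ(x; χ)|| ≥ exp (x^e)` for large `x`, with a constant `e > 0`;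
* Stark's conjecture for `χ` and the automorphism `σ` of `ℂ` is true if and only if for all `φ` there
  are a number `a ≠ 0`, integers `r`, `r'`, one direction `τ` and one sequence `x → ∞` such that
  `R(χ, φ) / Q_{τ,r}(x; χ) → a` and `R(χ^σ, φ) / Q_{τ,r'}(x; χ^σ) → σ(a)`.

So the conjecture compares the limits of two explicit sums over the primes; the orders of vanishing need
not be known, and it is enough to have the limits along one sequence in one direction.
-/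

set_option autoImplicit false

namespace Pool.Agent.Results.MP_46b841_nt.SmoothedFrobeniusForm

open NumberField Filter Topology
open Pool.Agent.K4H74.SK
open Pool.Agent.U745.SK (IsCont)

/-- the term at the power `p^n`: `χ(p^n) / (n Γ(1 + ω n log N(p) / log x))` -/
noncomputable def term {E : Ext} (χ : G E → ℂ) (τ x : ℝ) (i : Pr E × ℕ+) : ℂ :=
  frobMean χ i.1.1 i.2 / ((i.2 : ℕ) *
    Complex.Gamma (1 + (1 + τ * Complex.I) *
      (((i.2 : ℕ) * Real.log (Ideal.absNorm i.1.1) : ℝ) / Real.log x)))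

/-- the smoothed product `P_τ(x; χ)` at `s = 0` -/
noncomputable def prod {E : Ext} (χ : G E → ℂ) (τ x : ℝ) : ℂ :=
  Complex.exp (∑' i : Pr E × ℕ+, term χ τ x i)

/-- `κ = ∫_0^∞ (e^{-t} - 1/Γ(1 + t)) dt/t` -/
noncomputable def kappa : ℝ :=
  ∫ t in Set.Ioi (0 : ℝ), (Real.exp (-t) - (Real.Gamma (1 + t))⁻¹) / t

/-- `Q_{τ,r}(x; χ) = P_τ(x; χ) (log x / (ω e^κ))^r` -/
noncomputable def normProd {E : Ext} (χ : G E → ℂ) (τ : ℝ) (r : ℤ) (x : ℝ) : ℂ :=
  prod χ τ x * (Real.log x / ((1 + τ * Complex.I) * Real.exp kappa)) ^ r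

/-- `f` has no zeros and poles on the ray `{(1 + iτ) y : y > 0}` -/
def Free (f : ℂ → ℂ) (τ : ℝ) : Prop :=
  ∀ y : ℝ, 0 < y → meromorphicOrderAt f ((1 + τ * Complex.I) * y) = 0

section bridge

variable {E : Ext} {χ : G E → ℂ} {f : ℂ → ℂ}

theorem term_eq (χ : G E → ℂ) (τ x : ℝ) (i : Pr E × ℕ+) : term χ τ x i =
    U745.SK.sc χ i *
      (Complex.Gamma (1 + W524.RY.dir τ * (U745.SK.sl E i / Real.log x)))⁻¹ := by
  unfold term U745.SK.sc U745.SK.sl W524.RY.dir
  rw [div_eq_mul_inv, mul_inv, div_eq_mul_inv]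
  ring

theorem prod_eq (χ : G E → ℂ) (τ x : ℝ) : prod χ τ x =
    Complex.exp (U745.DS.WW (U745.SK.sl E) (U745.SK.sc χ) τ x) := by
  unfold prod U745.DS.WW U745.DS.VV
  congr 1
  exact tsum_congr fun i => term_eq χ τ x i

theorem norm_eq (χ : G E → ℂ) (τ : ℝ) (r : ℤ) (x : ℝ) : normProd χ τ r x =
    Complex.exp (U745.DS.WW (U745.SK.sl E) (U745.SK.sc χ) τ x) *
      (Real.log x / (W524.RY.dir τ * Real.exp W189.LC.kap)) ^ r := by
  unfold normProd
  rw [prod_eq]
  rfl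

theorem free_iff (f : ℂ → ℂ) (τ : ℝ) : Free f τ ↔ U745.DS.Clear f τ := Iff.rfl

theorem norm_ne (χ : G E → ℂ) (τ : ℝ) (r : ℤ) {x : ℝ} (hx : 1 < x) : normProd χ τ r x ≠ 0 := by
  rw [norm_eq]
  refine mul_ne_zero (Complex.exp_ne_zero _) (zpow_ne_zero _ (div_ne_zero ?_ (mul_ne_zero
    (W524.RY.dir_ne τ) ?_)))
  · exact_mod_cast (Real.log_pos hx).ne'
  · exact_mod_cast (Real.exp_pos _).ne'

end bridge

/-- **Stark's conjecture in terms of Frobenius data.**  Let `c` be a system of leading coefficients at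
`s = 0` of the Artin L-functions (such systems exist; by Brauer's theorem on the meromorphic
continuation, the only one is `L*(0, χ)`), `χ` a character of the Galois extension `L / K` and `f` the
meromorphic continuation of `L(s, χ)`.  Then

1. the series in the definition of `P_τ(x; χ)` converges absolutely for all `x > 1`;
2. only finitely many `τ` in every bounded interval are not free;
3. let `r` be the order of `f` at `0`; for all free `τ` one has
  `Q_{τ,r}(x; χ) = c(χ) + O(1 / log x)`, and `R / Q_{τ,r}(x; χ) → A(χ, φ)`, `R` the regulator of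
  `χ` and `φ`;
4. `|log |P_τ(x; χ)|| ≥ exp (x^e)` with `e > 0`, for large `x`, if `τ` is not free;
5. let `σ` be an automorphism of `ℂ` and `f'` the meromorphic continuation of `L(s, χ^σ)`.
  Stark's conjecture for `χ` and `σ` holds if and only if for all `φ` (with the regulators `R`, `R'` of
  `χ` and `χ^σ`) there are `a ≠ 0`, integers `r`, `r'`, a direction `τ` and a sequence `x → ∞` with
  `R / Q_{τ,r}(x; χ) → a` and `R' / Q_{τ,r'}(x; χ^σ) → σ(a)`. -/
theorem result : (∃ c : Pair → ℂ, IsLeading c) ∧ ∀ c : Pair → ℂ, IsLeading c →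
    ∀ (E : Ext) (χ : G E → ℂ), IsChr χ → ∀ f : ℂ → ℂ, IsCont χ f →
      -- 1
      (∀ τ x : ℝ, 1 < x → Summable fun i => ‖term χ τ x i‖) ∧
      -- 2
      (∀ B : ℝ, {τ : ℝ | |τ| ≤ B ∧ ¬ Free f τ}.Finite) ∧
      -- 3
      (∃ r : ℤ, meromorphicOrderAt f 0 = r ∧ ∀ τ : ℝ, Free f τ →
        (∃ C : ℝ, ∀ᶠ x : ℝ in atTop, ‖normProd χ τ r x - c ⟨E, χ⟩‖ ≤ C / Real.log x) ∧
        ∀ (Λ : Y E →ₗ[ℂ] Y E) (R : ℂ), IsReg Λ χ R →
          IsA c Λ χ (R / c ⟨E, χ⟩) ∧
          Tendsto (fun x : ℝ => R / normProd χ τ r x) atTop (𝓝 (R / c ⟨E, χ⟩))) ∧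
      -- 4
      (∀ τ : ℝ, ¬ Free f τ → ∃ e : ℝ, 0 < e ∧
        ∀ᶠ x : ℝ in atTop, Real.exp (x ^ e) ≤ |Real.log ‖prod χ τ x‖|) ∧
      -- 5
      ∀ (σ : ℂ ≃+* ℂ) (f' : ℂ → ℂ), IsCont (fun g => σ (χ g)) f' →
        (Stark c σ χ ↔ ∀ Λ : Y E →ₗ[ℂ] Y E, IsStarkMap Λ → ∀ R R' : ℂ, IsReg Λ χ R →
          IsReg Λ (fun g => σ (χ g)) R' →
          ∃ (a : ℂ) (r r' : ℤ) (τ : ℝ) (x : ℕ → ℝ), a ≠ 0 ∧ Tendsto x atTop atTop ∧
            Tendsto (fun n => R / normProd χ τ r (x n)) atTop (𝓝 a) ∧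
            Tendsto (fun n => R' / normProd (fun g => σ (χ g)) τ r' (x n)) atTop (𝓝 (σ a))) := by
  refine ⟨exists_isLeading, fun c hc E χ hχ f hf => ?_⟩
  have hS := U745.SK.ser χ hf
  have hcne : c ⟨E, χ⟩ ≠ 0 := hc.ne hχ
  obtain ⟨r, ℓ, hℓ, hlead⟩ := U745.DS.exists_leading hS
  obtain ⟨hord, hcl⟩ := (U745.SK.leading_iff' hc hχ hf hℓ).1 hlead
  have hlaw : ∀ τ : ℝ, Free f τ →
      ∃ C : ℝ, ∀ᶠ x : ℝ in atTop, ‖normProd χ τ r x - c ⟨E, χ⟩‖ ≤ C / Real.log x := by
    intro τ hτ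
    have h1 := U745.DS.law_of_leading hS hℓ hlead hτ
    rw [hcl]
    simp only [norm_eq]
    exact h1
  refine ⟨fun τ x hx => ?_, fun B => ?_, ⟨r, hord, fun τ hτ => ⟨hlaw τ hτ, fun Λ R hR =>
    ⟨⟨R, hR, rfl⟩, ?_⟩⟩⟩, fun τ hτ => ?_, fun σ f' hf' => ?_⟩
  · refine (U745.DS.VV_summable hS τ (Real.log_pos hx)).congr fun i => ?_
    rw [term_eq]
  · refine (hS.blocked_finite B).subset ?_
    rintro τ ⟨h1, h2⟩
    rw [free_iff] at h2
    unfold U745.DS.Clear at h2
    push Not at h2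
    exact ⟨h1, h2⟩
  · exact tendsto_const_nhds.div (U745.DS.lim_of_rate (hlaw τ hτ)) hcne
  · obtain ⟨e, he, h⟩ := U745.DS.fast_of_not_clear hS τ hτ
    refine ⟨e, he, ?_⟩
    filter_upwards [h] with x hx
    rw [prod_eq, Complex.norm_exp, Real.log_exp]
    exact hx
  · have hG : Finite (G E) := inferInstanceAs (Finite (E.L ≃ₐ[E.K] E.L))
    have hχ' : IsChr (fun g => σ (χ g)) := Pool.Agent.K4H74.SK.isChr_iff.mpr
      (Pool.Agent.K4H74.SC.isChar_sigma (Pool.Agent.K4H74.SK.isChr_iff.mp hχ) σ.toRingHom)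
    have hS' := U745.SK.ser (fun g => σ (χ g)) hf'
    have hcne' : c ⟨E, fun g => σ (χ g)⟩ ≠ 0 := hc.ne hχ'
    have hreg : ∀ {Λ : Y E →ₗ[ℂ] Y E}, IsStarkMap Λ → ∀ {χ₁ : G E → ℂ} {R : ℂ},
        IsReg Λ χ₁ R → R ≠ 0 := by
      intro Λ hΛ χ₁ R hR
      obtain ⟨φ, hφ⟩ := Pool.Agent.K4H74.SK.exists_old hΛ
      exact (Pool.Agent.K4H74.SK.reg_old hφ hR).ne
    have hback : ∀ {χ₁ : G E → ℂ}, IsChr χ₁ → ∀ {f₁ : ℂ → ℂ}, IsCont χ₁ f₁ → ∀ {R a : ℂ}, R ≠ 0 →
        a ≠ 0 → ∀ {ρ : ℤ} {τ : ℝ} {x : ℕ → ℝ}, Tendsto x atTop atTop →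
        Tendsto (fun n => R / normProd χ₁ τ ρ (x n)) atTop (𝓝 a) → a = R / c ⟨E, χ₁⟩ := by
      intro χ₁ h₁ f₁ hf₁ R a hR ha ρ τ x hx h
      have h2 : Tendsto (fun n => normProd χ₁ τ ρ (x n)) atTop (𝓝 (R / a)) := by
        have h3 := (tendsto_const_nhds (x := R)).div h ha
        refine h3.congr' ?_
        filter_upwards [hx.eventually (eventually_gt_atTop 1)] with n hn
        have := norm_ne χ₁ τ ρ hn
        simp only [Pi.div_apply]
        field_simp
      have hb : R / a ≠ 0 := div_ne_zero hR ha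
      have h4 : Pool.Agent.U745.LT.Leading f₁ 0 ρ (R / a) := by
        simp only [norm_eq] at h2
        exact U745.DS.leading_of_seq (U745.SK.ser χ₁ hf₁) hb hx h2
      have h5 := ((U745.SK.leading_iff' hc h₁ hf₁ hb).1 h4).2
      rw [h5]
      field_simp
    constructor
    · intro hst Λ hΛ R R' hR hR'
      obtain ⟨τ, hτ, hτ'⟩ := U745.SK.common_clear hS hS'
      obtain ⟨r', ℓ', hℓ', hlead'⟩ := U745.DS.exists_leading hS'
      obtain ⟨hord', hcl'⟩ := (U745.SK.leading_iff' hc hχ' hf' hℓ').1 hlead'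
      have h1 := U745.DS.lim_of_rate (hlaw τ hτ)
      have h2 : Tendsto (fun x : ℝ => normProd (fun g => σ (χ g)) τ r' x) atTop
          (𝓝 (c ⟨E, fun g => σ (χ g)⟩)) := by
        have h3 := U745.DS.lim_of_rate (U745.DS.law_of_leading hS' hℓ' hlead' hτ')
        rw [hcl']
        simp only [norm_eq]
        exact h3
      have h3 := hst Λ hΛ _ _ ⟨R, hR, rfl⟩ ⟨R', hR', rfl⟩
      refine ⟨R / c ⟨E, χ⟩, r, r', τ, fun n => n, div_ne_zero (hreg hΛ hR) hcne,
        tendsto_natCast_atTop_atTop, ?_, ?_⟩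
      · exact (tendsto_const_nhds.div h1 hcne).comp tendsto_natCast_atTop_atTop
      · rw [h3]
        exact (tendsto_const_nhds.div h2 hcne').comp tendsto_natCast_atTop_atTop
    · intro h Λ hΛ a₁ a₁' ha₁ ha₁'
      obtain ⟨R, hR, rfl⟩ := ha₁
      obtain ⟨R', hR', rfl⟩ := ha₁'
      obtain ⟨a, r₁, r₁', τ, x, ha, hx, h1, h2⟩ := h Λ hΛ R R' hR hR'
      have hσa : σ a ≠ 0 := by
        intro h3
        exact ha ((map_eq_zero σ).1 h3)
      rw [← hback hχ hf (hreg hΛ hR) ha hx h1, ← hback hχ' hf' (hreg hΛ hR') hσa hx h2]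

end Pool.Agent.Results.MP_46b841_nt.SmoothedFrobeniusForm
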